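import Pool.Agent.Y409.Gr5

set_option autoImplicit false
open scoped Classical

/-!
`MP_cf1753_co`, Q2, the negated form: there is a graded, naturally labelled poset whose `P`-Eulerian
polynomial has a non-real zero. The poset has 166 elements.
-/

namespace Pool.Agent.Results.MP_cf1753_co.GradedNonreal

open Polynomial Pool.Agent.Y409.Gr

/-- There is a partial order `le` on the labels `0, ..., p - 1` that is naturally labelled
(`le a b` implies `a ≤ b`) and graded (all saturated chains from a minimal element to a maximal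
element have the same number of elements) such that the polynomial
`W_P(x) = ∑ x ^ (des σ + 1)`, over the linear extensions `σ`, has a non-real zero. -/
theorem result :
    ∃ (p : ℕ) (le : Fin p → Fin p → Prop),
    (∀ a, le a a) ∧
    (∀ a b, le a b → le b a → a = b) ∧
    (∀ a b c, le a b → le b c → le a c) ∧
    (∀ a b, le a b → a ≤ b) ∧
    (∃ r : ℕ, ∀ (k : ℕ) (c : Fin (k + 1) → Fin p),
      (∀ y, le y (c 0) → y = c 0) →
      (∀ y, le (c (Fin.last k)) y → y = c (Fin.last k)) →
      (∀ i : Fin k, le (c i.castSucc) (c i.succ) ∧ c i.castSucc ≠ c i.succ ∧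
        ∀ z, le (c i.castSucc) z → le z (c i.succ) → z = c i.castSucc ∨ z = c i.succ) →
      k = r) ∧
    ∃ z : ℂ, z.im ≠ 0 ∧
      Polynomial.aeval z
        (∑ σ ∈ Finset.univ.filter
            (fun σ : Equiv.Perm (Fin p) => ∀ i j, le (σ i) (σ j) → i ≤ j),
          (Polynomial.X : Polynomial ℝ) ^
            ((Finset.univ.filter
              (fun i : Fin p => ∃ j : Fin p, j.val = i.val + 1 ∧ σ j < σ i)).card + 1)) = 0 := by
  refine ⟨166, Pool.Agent.Y409.Gr.le, le_refl', le_antisymm', le_trans', natural,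
    ⟨27, fun k c h0 h1 h2 => graded k c h0 h1 h2⟩, ?_⟩
  -- the polynomial without the extra factor `X`
  set P : ℝ[X] := ∑ σ ∈ Finset.univ.filter
      (fun σ : Equiv.Perm (Fin 166) => ∀ i j, Pool.Agent.Y409.Gr.le (σ i) (σ j) → i ≤ j),
      (Polynomial.X : Polynomial ℝ) ^ (Finset.univ.filter
        (fun i : Fin 166 => ∃ j : Fin 166, j.val = i.val + 1 ∧ σ j < σ i)).card with hP
  have hW : P = V 13 166 LA LB 0 0 := by
    rw [hP, Pool.Agent.W233.SG.sum_perm prd 166 Pool.Agent.Y409.Gr.le
      (fun a b => by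
        unfold Pool.Agent.Y409.Gr.le
        rw [prd_iff]
        exact or_congr_right ⟨fun h => ⟨a.isLt, h⟩, fun h => h.2⟩)
      (fun b y h => ((prd_iff _ _).mp h).1)
      (fun b => by
        rw [← Bool.not_eq_true, prd_iff]
        rintro ⟨_, h⟩
        exact lt_irrefl _ (rel_lt _ _ _ h))]
    rw [main1 13 166 blk prd blk_mono (fun x _ y => prd_iff x y) 166 0 0 LA LB LA_sorted LB_sorted
      LA_even LB_odd hR0]
    have e1 : blk 0 = 0 := by decide +kernel
    rw [e1]
    have e2 : (R blk 166 0 0).filter (fun y => y < 0) = ∅ := by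
      rw [Finset.filter_eq_empty_iff]
      intro x _
      exact Nat.not_lt_zero x
    rw [e2, Finset.card_empty]
  have hrun := run_spec 13 322 (by norm_num) LA LB LA_sorted LB_sorted LA_even LB_odd 165
    LAB_length
  have hv := bviol_spec _ run_viol
  rw [hrun] at hv
  have hE : E 13 322 (165 + 1) LA LB 0 0 = (((322 : ℕ) : ℝ) ^ 166) • jet 322 P := by
    rw [hW]
    rfl
  rw [hE] at hv
  set x0 : ℝ := -1 / ((322 : ℕ) : ℝ) with hx0
  have hv2 : P.derivative.eval x0 ^ 2 < P.eval x0 * P.derivative.derivative.eval x0 := by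
    have hj : jet 322 P = (P.eval x0, P.derivative.eval x0, P.derivative.derivative.eval x0 / 2) :=
      rfl
    rw [hj] at hv
    simp only [Prod.smul_mk, smul_eq_mul] at hv
    have hpos : (0 : ℝ) < (((322 : ℕ) : ℝ) ^ 166) ^ 2 := by positivity
    set K : ℝ := ((322 : ℕ) : ℝ) ^ 166 with hK
    have h1 : K ^ 2 * (P.derivative.eval x0 ^ 2) <
        K ^ 2 * (P.eval x0 * P.derivative.derivative.eval x0) := by
      calc K ^ 2 * (P.derivative.eval x0 ^ 2) = (K * P.derivative.eval x0) ^ 2 := by ring
        _ < 2 * (K * P.eval x0) * (K * (P.derivative.derivative.eval x0 / 2)) := hv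
        _ = K ^ 2 * (P.eval x0 * P.derivative.derivative.eval x0) := by ring
    exact lt_of_mul_lt_mul_left h1 hpos.le
  have hP0 : P ≠ 0 := by
    intro h
    rw [h] at hv2
    simp at hv2
  have hex : ∃ z : ℂ, Polynomial.aeval z P = 0 ∧ z.im ≠ 0 := by
    by_contra hcon
    push Not at hcon
    have := Pool.Agent.W233.SG.laguerre P.natDegree P le_rfl hcon hP0 x0
    exact absurd hv2 (not_lt.mpr this)
  obtain ⟨z, hz, him⟩ := hex
  refine ⟨z, him, ?_⟩
  have hX : (∑ σ ∈ Finset.univ.filter
            (fun σ : Equiv.Perm (Fin 166) => ∀ i j, Pool.Agent.Y409.Gr.le (σ i) (σ j) → i ≤ j),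
          (Polynomial.X : Polynomial ℝ) ^
            ((Finset.univ.filter
              (fun i : Fin 166 => ∃ j : Fin 166, j.val = i.val + 1 ∧ σ j < σ i)).card + 1)) =
      P * X := by
    rw [hP, Finset.sum_mul]
    refine Finset.sum_congr rfl fun σ _ => ?_
    rw [pow_succ]
  rw [hX, map_mul, hz, zero_mul]

end Pool.Agent.Results.MP_cf1753_co.GradedNonreal
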